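import Pool.Agent.H16.PI.Base

set_option autoImplicit false
set_option linter.unusedSectionVars false

namespace Pool.Agent.H51.PI

open Polynomial Pool.Agent Pool.Agent.Helper35 Pool.Agent.H16.PI Pool.Agent.Y821.PW

theorem fac (P : ℂ[X]) : C P.leadingCoeff * (P.roots.map (fun a => X - C a)).prod = P :=
  C_leadingCoeff_mul_prod_multiset_X_sub_C IsAlgClosed.card_roots_eq_natDegree

theorem fac_eval (P : ℂ[X]) (x : ℂ) :
    P.eval x = P.leadingCoeff * (P.roots.map (fun a => x - a)).prod := by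
  conv_lhs => rw [← fac P]
  rw [eval_mul, eval_C, eval_multiset_prod, Multiset.map_map]
  simp

/-- The norm at a value of `R`. -/
theorem NR_eval (hA : StA) (R S : ℤ[X]) (hR : 1 ≤ R.natDegree) (hS : S ≠ 0) (x : ℂ) (Q : ℂ[X])
    (hQ : R.map (Int.castRingHom ℂ) - C ((R.map (Int.castRingHom ℂ)).eval x) = (X - C x) * Q) :
    aeval (aeval x R) (NR R S) = (S.leadingCoeff : ℂ) ^ (R.natDegree - 1) * aeval x S *
      ((S.map (Int.castRingHom ℂ)).roots.map (fun a => Q.eval a)).prod := by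
  have h1 := congrArg (eval (aeval x R)) (hA R S hR hS)
  rw [aeval_map_eval, eval_mul, eval_C, eval_multiset_prod, Multiset.map_map] at h1
  rw [h1]
  have h2 : ∀ a : ℂ, aeval x R - aeval a R = (x - a) * Q.eval a := by
    intro a
    have h3 := congrArg (eval a) hQ
    simp only [eval_sub, eval_C, eval_mul, eval_X, aeval_map_eval] at h3
    linear_combination -h3
  have h4 : (Multiset.map (eval (aeval x R) ∘ fun a : ℂ => X - C (aeval a R))
      (S.map (Int.castRingHom ℂ)).roots) =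
      (S.map (Int.castRingHom ℂ)).roots.map (fun a => (x - a) * Q.eval a) := by
    refine Multiset.map_congr rfl fun a _ => ?_
    rw [Function.comp_apply, eval_sub, eval_X, eval_C, h2]
  rw [h4, Multiset.prod_map_mul]
  have h5 : aeval x S = (S.leadingCoeff : ℂ) *
      ((S.map (Int.castRingHom ℂ)).roots.map (fun a => x - a)).prod := by
    rw [← aeval_map_eval, fac_eval, leadingCoeff_map_of_injective (RingHom.injective_int _)]
    simp
  rw [h5]
  obtain ⟨d, hd⟩ : ∃ d, R.natDegree = d + 1 := ⟨R.natDegree - 1, by omega⟩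
  rw [hd, Nat.add_sub_cancel, pow_succ]
  ring

variable {e V Mq : ℕ → ℕ} (X : SData e V Mq)

/-- The roots of the special polynomials. -/
theorem roots_S (k : ℕ) : ((X.S k).map (Int.castRingHom ℂ)).roots =
    ((TD (e k)).T.map (Int.castRingHom ℂ)).roots.map (fun a => a + (X.n k : ℂ) / (X.N k : ℂ)) := by
  have hN : (X.N k : ℂ) ^ (e k + 1) ≠ 0 := by
    have := X.N_pos k
    exact pow_ne_zero _ (by exact_mod_cast (by omega : X.N k ≠ 0))
  have hT : (TD (e k)).T ≠ 0 := (TD (e k)).irr.ne_zero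
  have hl : ((TD (e k)).T.map (Int.castRingHom ℂ)).leadingCoeff ≠ 0 :=
    leadingCoeff_ne_zero.mpr ((Polynomial.map_ne_zero_iff (RingHom.injective_int _)).mpr hT)
  have h1 : (X.S k).map (Int.castRingHom ℂ) = C ((X.N k : ℂ) ^ (e k + 1) *
      ((TD (e k)).T.map (Int.castRingHom ℂ)).leadingCoeff) *
      ((((TD (e k)).T.map (Int.castRingHom ℂ)).roots.map
        (fun a => a + (X.n k : ℂ) / (X.N k : ℂ))).map (fun a => Polynomial.X - C a)).prod := by
    refine Polynomial.funext fun x => ?_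
    rw [aeval_map_eval, S_evalC, ← aeval_map_eval, fac_eval, eval_mul, eval_C,
      eval_multiset_prod, Multiset.map_map, Multiset.map_map, mul_assoc]
    congr 3
    refine Multiset.map_congr rfl fun a _ => ?_
    simp
    ring
  rw [h1, roots_C_mul _ (mul_ne_zero hN hl), roots_multiset_prod_X_sub_C]

/-- `ξ` is transcendental, in the form needed here. -/
theorem comp_ne (hM : Demand e Mq) (hV : ∀ j, 22 ≤ V j) (hmono : Monotone V)
    (hV40 : ∀ j, 40 * (j + 1) ≤ V j) : ¬ IsAlgebraic ℚ (X.ξ : ℂ) := by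
  intro h2
  rw [← IsFractionRing.isAlgebraic_iff ℤ ℚ ℂ] at h2
  obtain ⟨P, hP, h0⟩ := h2
  rw [aevalC_real] at h0
  exact W72.ne_zero_at X hM hV hmono hV40 P hP (by exact_mod_cast h0)

/-- A value of a nonconstant polynomial at a transcendental point is transcendental. -/
theorem trans_aeval {ξ : ℂ} (hξ : ¬ IsAlgebraic ℚ ξ) {R : ℤ[X]} (hR : 1 ≤ R.natDegree) :
    ¬ IsAlgebraic ℚ (aeval ξ R) := by
  intro h
  rw [← IsFractionRing.isAlgebraic_iff ℤ ℚ ℂ] at h
  obtain ⟨P, hP, h0⟩ := h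
  apply hξ
  rw [← IsFractionRing.isAlgebraic_iff ℤ ℚ ℂ]
  refine ⟨P.comp R, ?_, by rw [aeval_comp]; exact h0⟩
  intro h1
  rw [comp_eq_zero_iff] at h1
  rcases h1 with h1 | h1
  · exact hP h1
  · rw [h1.2] at hR
    simp at hR

/-- A value at a transcendental point is not a value at a translate by an algebraic number. -/
theorem trans_shift {ξ : ℂ} (hξ : ¬ IsAlgebraic ℚ ξ) {R : ℤ[X]} (hR : 1 ≤ R.natDegree) {c : ℂ}
    (hc : IsAlgebraic ℚ c) (hc0 : c ≠ 0) : aeval (ξ + c) R ≠ aeval ξ R := by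
  intro h
  set K := algebraicClosure ℚ ℂ with hK
  have hcK : c ∈ K := by
    rw [hK, mem_algebraicClosure_iff]
    exact hc
  set c' : K := ⟨c, hcK⟩ with hc'
  set W : K[X] := (R.map (algebraMap ℤ K)).comp (Polynomial.X + C c') - R.map (algebraMap ℤ K)
    with hW
  have hWe : ∀ x : ℂ, aeval x W = aeval (x + c) R - aeval x R := by
    intro x
    rw [hW, map_sub, aeval_comp, aeval_map_algebraMap, aeval_map_algebraMap, map_add, aeval_X,
      aeval_C]
    rfl
  have hW0 : W ≠ 0 := by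
    intro h0
    have h1 : ∀ x : ℂ, aeval (x + c) R = aeval x R := by
      intro x
      have := hWe x
      rw [h0, map_zero] at this
      exact (sub_eq_zero.mp this.symm)
    have h2 : ∀ m : ℕ, aeval ((m : ℂ) * c) R = aeval (0 : ℂ) R := by
      intro m
      induction m with
      | zero => simp
      | succ m ih =>
        calc aeval (((m + 1 : ℕ) : ℂ) * c) R = aeval ((m : ℂ) * c + c) R := by
              congr 2
              push_cast
              ring
          _ = aeval ((m : ℂ) * c) R := h1 _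
          _ = _ := ih
    have h3 : R.map (Int.castRingHom ℂ) - C (aeval (0 : ℂ) R) = 0 := by
      refine Polynomial.eq_zero_of_infinite_isRoot _ ?_
      refine Set.Infinite.mono (s := Set.range fun m : ℕ => (m : ℂ) * c) ?_ ?_
      · rintro _ ⟨m, rfl⟩
        show eval _ _ = 0
        rw [eval_sub, eval_C, aeval_map_eval, h2, sub_self]
      · refine Set.infinite_range_of_injective fun a b hab => ?_
        have := mul_right_cancel₀ hc0 hab
        exact_mod_cast this
    have h4 : (R.map (Int.castRingHom ℂ)).natDegree = 0 := by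
      rw [sub_eq_zero.mp h3, natDegree_C]
    rw [natDegree_map_eq_of_injective (RingHom.injective_int _)] at h4
    omega
  have h5 : IsAlgebraic K ξ := ⟨W, hW0, by rw [hWe, h, sub_self]⟩
  have : Algebra.IsAlgebraic ℚ K := algebraicClosure.isAlgebraic ℚ ℂ
  exact hξ (h5.restrictScalars ℚ)

theorem alg_aeval {a : ℂ} (ha : IsAlgebraic ℚ a) (R : ℤ[X]) : IsAlgebraic ℚ (aeval a R) := by
  have haK : a ∈ algebraicClosure ℚ ℂ := mem_algebraicClosure_iff.mpr ha
  have h1 : aeval a R = algebraMap (algebraicClosure ℚ ℂ) ℂ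
      (aeval (⟨a, haK⟩ : algebraicClosure ℚ ℂ) R) := by
    rw [← aeval_algebraMap_apply]
    rfl
  rw [h1]
  exact mem_algebraicClosure_iff.mp (aeval (⟨a, haK⟩ : algebraicClosure ℚ ℂ) R).2

theorem stD (hA : StA) : StD := by
  intro e V Mq X hM hV hmono hV40 R hR j
  classical
  have hξ := comp_ne X hM hV hmono hV40
  set x : ℂ := (X.ξ : ℂ) with hx
  obtain ⟨T, hT⟩ : ∃ T : ℤ[X], T = (TD j).T := ⟨_, rfl⟩
  obtain ⟨θ, hθ⟩ : ∃ θ : ℝ, θ = (TD j).θ := ⟨_, rfl⟩
  have hT0 : T ≠ 0 := by rw [hT]; exact (TD j).irr.ne_zero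
  have hTroot : ∀ a ∈ (T.map (Int.castRingHom ℂ)).roots, IsAlgebraic ℚ a := by
    intro a ha
    rw [← IsFractionRing.isAlgebraic_iff ℤ ℚ ℂ]
    refine ⟨T, hT0, ?_⟩
    rw [← aeval_map_eval]
    exact (mem_roots'.mp ha).2
  have hθalg : IsAlgebraic ℚ (θ : ℂ) := by
    rw [← IsFractionRing.isAlgebraic_iff ℤ ℚ ℂ]
    refine ⟨T, hT0, ?_⟩
    rw [aevalC_real, hT, hθ, (TD j).root]; simp
  obtain ⟨Q, hQ⟩ : ∃ Q : ℂ[X], R.map (Int.castRingHom ℂ) -
      C ((R.map (Int.castRingHom ℂ)).eval x) = (Polynomial.X - C x) * Q := by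
    have := X_sub_C_dvd_sub_C_eval (a := x) (p := R.map (Int.castRingHom ℂ))
    exact this
  have hQe : ∀ a : ℂ, aeval a R - aeval x R = (a - x) * Q.eval a := by
    intro a
    have h3 := congrArg (eval a) hQ
    simp only [eval_sub, eval_C, eval_mul, eval_X, aeval_map_eval] at h3
    exact h3
  have hQx : Q.eval x ≠ 0 := by
    have h3 := congrArg (fun P => eval x (derivative P)) hQ
    simp only [derivative_sub, derivative_C, derivative_mul, derivative_X, sub_zero, one_mul,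
      eval_add, eval_mul, eval_sub, eval_X, eval_C, sub_self, zero_mul, add_zero,
      derivative_map, aeval_map_eval] at h3
    rw [← h3]
    intro h4
    apply hξ
    rw [← IsFractionRing.isAlgebraic_iff ℤ ℚ ℂ]
    refine ⟨derivative R, ?_, h4⟩
    intro h5
    have h6 := derivative_eq_zero.mp h5
    omega
  -- the product
  set G : ℂ[X] := ((T.map (Int.castRingHom ℂ)).roots.map
    (fun a => Q.comp (Polynomial.X + C a))).prod with hG
  have hGe : ∀ t : ℂ, G.eval t = (((T.map (Int.castRingHom ℂ)).roots.map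
      (fun a => a + t)).map (fun a => Q.eval a)).prod := by
    intro t
    rw [hG, eval_multiset_prod, Multiset.map_map, Multiset.map_map]
    congr 1
    refine Multiset.map_congr rfl fun a _ => ?_
    simp [add_comm]
  have hGne : ∀ t : ℂ, (∀ a ∈ (T.map (Int.castRingHom ℂ)).roots, Q.eval (a + t) ≠ 0) →
      G.eval t ≠ 0 := by
    intro t ht
    rw [hGe]
    refine Multiset.prod_ne_zero ?_
    rw [Multiset.map_map]
    intro h0
    obtain ⟨a, ha, ha0⟩ := Multiset.mem_map.mp h0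
    exact ht a ha ha0
  have hGrat : ∀ t : ℂ, IsAlgebraic ℚ t → G.eval t ≠ 0 := by
    intro t ht
    refine hGne t fun a ha h0 => ?_
    have h1 := hQe (a + t)
    rw [h0, mul_zero] at h1
    have h2 : aeval x R = aeval (a + t) R := (sub_eq_zero.mp h1).symm
    apply trans_aeval hξ hR
    rw [h2]
    exact alg_aeval ((hTroot a ha).add ht) R
  have hGlim : G.eval (x - θ) ≠ 0 := by
    refine hGne _ fun a ha h0 => ?_
    by_cases haθ : a = θ
    · rw [haθ, add_sub_cancel] at h0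
      exact hQx h0
    · have h1 := hQe (a + (x - θ))
      rw [h0, mul_zero] at h1
      have h2 : a + (x - θ) = x + (a - θ) := by ring
      rw [h2] at h1
      exact trans_shift hξ hR ((hTroot a ha).sub hθalg) (sub_ne_zero.mpr haθ) (sub_eq_zero.mp h1)
  -- lower bound of `G` at the translates
  have hpos : ∀ k, 0 < ‖G.eval ((X.n k : ℂ) / (X.N k : ℂ))‖ := by
    intro k
    rw [norm_pos_iff]
    apply hGrat
    have : ((X.n k : ℂ) / (X.N k : ℂ)) = algebraMap ℚ ℂ ((X.n k : ℚ) / (X.N k : ℚ)) := by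
      simp
    rw [this]
    exact isAlgebraic_algebraMap _
  set κ : ℝ := ‖G.eval (x - θ)‖ / 2 with hκ
  have hκ0 : 0 < κ := by rw [hκ]; have := norm_pos_iff.mpr hGlim; linarith
  obtain ⟨δ, hδ, hδ2⟩ := Metric.continuousAt_iff.mp
    (G.continuous.continuousAt (x := x - (θ : ℂ))) κ hκ0
  have hbig : ∀ k, e k = j → ⌈2 / δ⌉₊ < k → κ ≤ ‖G.eval ((X.n k : ℂ) / (X.N k : ℂ))‖ := by
    intro k hk hkb
    have hN := X.N_one_le k
    have hNpos : (0 : ℝ) < X.N k := by linarith
    have hkN : ((⌈2 / δ⌉₊ : ℕ) : ℝ) < X.N k := by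
      have := X.k_le_N hM k
      exact_mod_cast (by omega : ⌈2 / δ⌉₊ < X.N k)
    have h1 : 2 / δ < X.N k := lt_of_le_of_lt (Nat.le_ceil _) hkN
    have h2 : 2 / (X.N k : ℝ) < δ := by
      rw [div_lt_iff₀ hδ] at h1
      rw [div_lt_iff₀ hNpos]
      linarith
    have h3 := W72.alpha_close X hV k
    have h4 : dist ((X.n k : ℂ) / (X.N k : ℂ)) (x - (θ : ℂ)) < δ := by
      rw [dist_comm, dist_eq_norm]
      have e4 : x - (θ : ℂ) - (X.n k : ℂ) / (X.N k : ℂ) = ((X.ξ - X.α k : ℝ) : ℂ) := by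
        unfold SData.α
        rw [hk, ← hθ]; push_cast; ring
      rw [e4, Complex.norm_real, Real.norm_eq_abs]
      linarith
    have h5 := hδ2 h4
    rw [dist_eq_norm] at h5
    have h6 := norm_sub_norm_le (G.eval (x - (θ : ℂ))) (G.eval ((X.n k : ℂ) / (X.N k : ℂ)))
    rw [norm_sub_rev] at h6
    have h7 : ‖G.eval (x - (θ : ℂ))‖ = 2 * κ := by rw [hκ]; ring
    linarith
  obtain ⟨k0, _, hk0⟩ := (Finset.range (⌈2 / δ⌉₊ + 1)).exists_min_image
    (fun k => ‖G.eval ((X.n k : ℂ) / (X.N k : ℂ))‖) ⟨0, Finset.mem_range.mpr (by omega)⟩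
  refine ⟨min κ ‖G.eval ((X.n k0 : ℂ) / (X.N k0 : ℂ))‖, lt_min hκ0 (hpos k0), fun k hk => ?_⟩
  have hmain : min κ ‖G.eval ((X.n k0 : ℂ) / (X.N k0 : ℂ))‖ ≤
      ‖G.eval ((X.n k : ℂ) / (X.N k : ℂ))‖ := by
    rcases le_or_gt k ⌈2 / δ⌉₊ with h | h
    · exact (min_le_right _ _).trans (hk0 k (Finset.mem_range.mpr (by omega)))
    · exact (min_le_left _ _).trans (hbig k hk h)
  have hSne : X.S k ≠ 0 := (X.S_irr k).ne_zero
  have hform := NR_eval hA R (X.S k) hR hSne x Q hQ
  rw [roots_S, hk, ← hT, ← hGe] at hform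
  have e1 : ‖aeval (aeval x R) (NR R (X.S k))‖ = |aeval (aeval X.ξ R) (NR R (X.S k))| := by
    rw [hx, aevalC_real, aevalC_real, Complex.norm_real, Real.norm_eq_abs]
  have e2 : ‖aeval x (X.S k)‖ = |aeval X.ξ (X.S k)| := by
    rw [hx, aevalC_real, Complex.norm_real, Real.norm_eq_abs]
  have hlead : 1 ≤ ‖((X.S k).leadingCoeff : ℂ)‖ := by
    rw [Complex.norm_intCast]
    have := Int.one_le_abs (leadingCoeff_ne_zero.mpr hSne)
    exact_mod_cast this
  rw [← e1, ← e2, hform, norm_mul, norm_mul, norm_pow]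
  have h8 : 1 ≤ ‖((X.S k).leadingCoeff : ℂ)‖ ^ (R.natDegree - 1) := one_le_pow₀ hlead
  have h9 : 0 ≤ ‖aeval x (X.S k)‖ := norm_nonneg _
  calc min κ ‖G.eval ((X.n k0 : ℂ) / (X.N k0 : ℂ))‖ * ‖aeval x (X.S k)‖
      ≤ ‖G.eval ((X.n k : ℂ) / (X.N k : ℂ))‖ * ‖aeval x (X.S k)‖ :=
        mul_le_mul_of_nonneg_right hmain h9
    _ = 1 * ‖aeval x (X.S k)‖ * ‖G.eval ((X.n k : ℂ) / (X.N k : ℂ))‖ := by ring
    _ ≤ _ := by gcongr

end Pool.Agent.H51.PI
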